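import Mathlib
import Pool.Agent.H801R3.SB.CB

set_option autoImplicit false

namespace Pool.Agent.R114.Det

/-- Cauchy-Binet bound: if all maximal minors of `C` are at most `D` in absolute value then
`det (Cᵀ C) ≤ 2 ^ k * D ^ 2`. -/
theorem cb_bound {k m : ℕ} (C : Matrix (Fin k) (Fin m) ℝ) (D : ℝ) (hD : 0 ≤ D)
    (h : ∀ a : Fin m ↪ Fin k, |(C.submatrix a id).det| ≤ D) :
    (C.transpose * C).det ≤ 2 ^ k * D ^ 2 := by
  classical
  rw [Pool.Agent.H801R3.SB.cauchyBinet]
  have h1 : ∀ a : Fin m → Fin k, (C.transpose.submatrix id a).det * (C.submatrix a id).det =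
      (C.submatrix a id).det ^ 2 := by
    intro a
    have : C.transpose.submatrix id a = (C.submatrix a id).transpose := rfl
    rw [this, Matrix.det_transpose, sq]
  simp_rw [h1]
  have h2 : ∑ a : Fin m → Fin k, (C.submatrix a id).det ^ 2 ≤
      ∑ a : Fin m → Fin k, if Function.Injective a then D ^ 2 else 0 := by
    apply Finset.sum_le_sum
    intro a _
    split_ifs with ha
    · rw [← sq_abs]
      exact pow_le_pow_left₀ (abs_nonneg _) (h ⟨a, ha⟩) 2
    · have : (C.submatrix a id).det = 0 := by
        rw [Function.not_injective_iff] at ha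
        obtain ⟨i, j, hij, hne⟩ := ha
        apply Matrix.det_zero_of_row_eq hne
        funext l
        simp [hij]
      rw [this]
      simp
  have h3 : ∑ a : Fin m → Fin k, (if Function.Injective a then D ^ 2 else 0) =
      (k.descFactorial m : ℝ) * D ^ 2 := by
    rw [← Finset.sum_filter, Finset.sum_const, nsmul_eq_mul]
    congr 2
    have h4 := Fintype.card_embedding_eq (α := Fin m) (β := Fin k)
    rw [Fintype.card_fin, Fintype.card_fin] at h4
    rw [← h4, ← Fintype.card_subtype]
    exact Fintype.card_congr (Equiv.subtypeInjectiveEquivEmbedding _ _)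
  have h5 : (k.descFactorial m : ℝ) ≤ m.factorial * 2 ^ k := by
    rw [Nat.descFactorial_eq_factorial_mul_choose]
    push_cast
    apply mul_le_mul_of_nonneg_left _ (by positivity)
    exact_mod_cast Nat.choose_le_two_pow k m
  calc (m.factorial : ℝ)⁻¹ * ∑ a : Fin m → Fin k, (C.submatrix a id).det ^ 2
      ≤ (m.factorial : ℝ)⁻¹ * ((k.descFactorial m : ℝ) * D ^ 2) := by
        apply mul_le_mul_of_nonneg_left _ (by positivity)
        rw [← h3]
        exact h2
    _ ≤ (m.factorial : ℝ)⁻¹ * ((m.factorial * 2 ^ k : ℝ) * D ^ 2) := by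
        apply mul_le_mul_of_nonneg_left _ (by positivity)
        exact mul_le_mul_of_nonneg_right h5 (by positivity)
    _ = 2 ^ k * D ^ 2 := by
        have : (m.factorial : ℝ) ≠ 0 := by positivity
        field_simp

end Pool.Agent.R114.Det
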