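import Mathlib

set_option autoImplicit false

namespace Pool.Agent.R114.Det

open MeasureTheory Real

variable {ι : Type} [Fintype ι] [DecidableEq ι]

theorem gauss_std : ∫⁻ x : ι → ℝ, ENNReal.ofReal (exp (-∑ i, x i ^ 2)) =
    ENNReal.ofReal (√π ^ Fintype.card ι) := by
  have h1 : ∀ x : ι → ℝ, exp (-∑ i, x i ^ 2) = ∏ i, exp (-1 * x i ^ 2) := by
    intro x
    rw [← Real.exp_sum]
    congr 1
    rw [← Finset.sum_neg_distrib]
    exact Finset.sum_congr rfl fun i _ => by ring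
  have h2 : Integrable (fun x : ι → ℝ => ∏ i, exp (-1 * x i ^ 2)) := by
    exact Integrable.fintype_prod (f := fun _ t => exp (-1 * t ^ 2))
      (fun _ => integrable_exp_neg_mul_sq one_pos)
  simp_rw [h1]
  rw [← ofReal_integral_eq_lintegral_ofReal h2
    (Filter.Eventually.of_forall fun x => Finset.prod_nonneg fun i _ => (exp_pos _).le)]
  congr 1
  rw [integral_fintype_prod_volume_eq_pow (fun t : ℝ => exp (-1 * t ^ 2)), integral_gaussian, div_one]

theorem gauss_mat (M : Matrix ι ι ℝ) (hM : M.det ≠ 0) (c : ι → ℝ) :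
    ∫⁻ x : ι → ℝ, ENNReal.ofReal (exp (-∑ i, (M.mulVec (x - c)) i ^ 2)) =
    ENNReal.ofReal (√π ^ Fintype.card ι / |M.det|) := by
  rw [lintegral_sub_right_eq_self (fun x : ι → ℝ =>
    ENNReal.ofReal (exp (-∑ i, (M.mulVec x) i ^ 2))) c]
  have hmeas : Measurable (fun y : ι → ℝ => ENNReal.ofReal (exp (-∑ i, y i ^ 2))) := by
    fun_prop
  have hlin : Measurable (Matrix.toLin' M) := by
    exact (Matrix.toLin' M).continuous_of_finiteDimensional.measurable
  have h1 := Real.map_matrix_volume_pi_eq_smul_volume_pi hM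
  have h2 := lintegral_map (μ := volume) hmeas hlin
  rw [h1] at h2
  have h3 : ∫⁻ x : ι → ℝ, ENNReal.ofReal (exp (-∑ i, (M.mulVec x) i ^ 2)) =
      ∫⁻ x : ι → ℝ, ENNReal.ofReal (exp (-∑ i, ((Matrix.toLin' M) x) i ^ 2)) := rfl
  rw [h3, ← h2, lintegral_smul_measure, gauss_std, smul_eq_mul,
    ← ENNReal.ofReal_mul (abs_nonneg _), abs_inv]
  congr 1
  field_simp

end Pool.Agent.R114.Det
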