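import Mathlib

set_option autoImplicit false

namespace Pool.Agent.R114.Det

open Finset

/-- the partial vector colouring hypothesis for a `k × k` matrix -/
def PV {k : ℕ} (B : Matrix (Fin k) (Fin k) ℝ) (lam : ℝ) : Prop :=
  ∀ U : Finset (Fin k), ∃ (d : ℕ) (v : Fin k → EuclideanSpace ℝ (Fin d)),
    (∀ i, ‖∑ j ∈ U, B i j • v j‖ ^ 2 ≤ lam ^ 2) ∧ (U.card : ℝ) / 2 ≤ ∑ j, ‖v j‖ ^ 2 ∧
    (∀ j ∈ U, ‖v j‖ ^ 2 ≤ 1) ∧ ∀ j, j ∉ U → v j = 0

theorem rounding {k : ℕ} (B : Matrix (Fin k) (Fin k) ℝ) (lam : ℝ) (hlam : 0 < lam)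
    (H : PV B lam) (x : Fin k → ℝ) (hx : ∀ j, |x j| ≤ 1) :
    ∃ y : Fin k → ℝ, (∀ j, |y j| ≤ 1) ∧
      2 * (univ.filter fun j => |y j| ≠ 1).card ≤ k ∧
      ∑ i, (B.mulVec (x - y)) i ^ 2 ≤ 4 * k * lam ^ 2 := by
  classical
  set Φ : (Fin k → ℝ) → ℝ := fun y =>
    ∑ j, y j ^ 2 - (1 / (4 * lam ^ 2)) * ∑ i, (B.mulVec (x - y)) i ^ 2 with hΦ
  have hcont : Continuous Φ := by
    have : ∀ y : Fin k → ℝ, Φ y = ∑ j, y j ^ 2 -
        (1 / (4 * lam ^ 2)) * ∑ i, (∑ j, B i j * (x j - y j)) ^ 2 := fun y => rfl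
    rw [show Φ = fun y => ∑ j, y j ^ 2 -
        (1 / (4 * lam ^ 2)) * ∑ i, (∑ j, B i j * (x j - y j)) ^ 2 from funext this]
    fun_prop
  have hcpt : IsCompact (Set.Icc (fun _ => -1 : Fin k → ℝ) (fun _ => 1)) := isCompact_Icc
  obtain ⟨y, hy, hmax⟩ := hcpt.exists_isMaxOn ⟨x, by
    constructor
    · intro j; exact (abs_le.mp (hx j)).1
    · intro j; exact (abs_le.mp (hx j)).2⟩ hcont.continuousOn
  have hyabs : ∀ j, |y j| ≤ 1 := fun j => abs_le.mpr ⟨hy.1 j, hy.2 j⟩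
  have hmax' : ∀ z : Fin k → ℝ, (∀ j, |z j| ≤ 1) → Φ z ≤ Φ y := by
    intro z hz
    exact hmax ⟨fun j => (abs_le.mp (hz j)).1, fun j => (abs_le.mp (hz j)).2⟩
  have hl2 : 0 < lam ^ 2 := by positivity
  refine ⟨y, hyabs, ?_, ?_⟩
  · by_contra hcon
    push Not at hcon
    set U := univ.filter fun j => |y j| ≠ 1 with hU
    obtain ⟨d, v, hv1, hv2, hv3, hv4⟩ := H U
    have hrow : ∀ i, ∑ j ∈ U, B i j • v j = ∑ j, B i j • v j := by
      intro i
      rw [← Finset.sum_subset (Finset.subset_univ U)]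
      intro j _ hj
      rw [hv4 j hj, smul_zero]
    -- coordinates
    have hc1 : ∑ c : Fin d, ∑ j, (v j c) ^ 2 = ∑ j, ‖v j‖ ^ 2 := by
      rw [Finset.sum_comm]
      apply Finset.sum_congr rfl
      intro j _
      rw [EuclideanSpace.real_norm_sq_eq]
    have hc2 : ∑ c : Fin d, ∑ i, (B.mulVec (fun j => v j c)) i ^ 2 =
        ∑ i, ‖∑ j, B i j • v j‖ ^ 2 := by
      rw [Finset.sum_comm]
      apply Finset.sum_congr rfl
      intro i _
      rw [EuclideanSpace.real_norm_sq_eq]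
      apply Finset.sum_congr rfl
      intro c _
      congr 1
      simp [Matrix.mulVec, dotProduct, Finset.sum_apply]
    have hc3 : ∑ i, ‖∑ j, B i j • v j‖ ^ 2 ≤ k * lam ^ 2 := by
      calc ∑ i, ‖∑ j, B i j • v j‖ ^ 2 ≤ ∑ i : Fin k, lam ^ 2 :=
            Finset.sum_le_sum fun i _ => by rw [← hrow]; exact hv1 i
        _ = k * lam ^ 2 := by simp
    have hlt : ∑ c : Fin d, (1 / (4 * lam ^ 2)) * ∑ i, (B.mulVec (fun j => v j c)) i ^ 2 <
        ∑ c : Fin d, ∑ j, (v j c) ^ 2 := by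
      rw [← Finset.mul_sum, hc1, hc2]
      have h5 : (1 / (4 * lam ^ 2)) * ∑ i, ‖∑ j, B i j • v j‖ ^ 2 ≤ (k : ℝ) / 4 := by
        calc (1 / (4 * lam ^ 2)) * ∑ i, ‖∑ j, B i j • v j‖ ^ 2
            ≤ (1 / (4 * lam ^ 2)) * (k * lam ^ 2) := by gcongr
          _ = (k : ℝ) / 4 := by field_simp
      have h6 : (k : ℝ) < 2 * U.card := by exact_mod_cast hcon
      linarith
    obtain ⟨c, -, hc⟩ := Finset.exists_lt_of_sum_lt hlt
    set z : Fin k → ℝ := fun j => v j c with hz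
    -- small step
    have hstep : ∀ᶠ s : ℝ in nhdsWithin 0 (Set.Ioi 0), ∀ j, |y j| + s * |z j| ≤ 1 := by
      rw [Filter.eventually_all]
      intro j
      by_cases hj : j ∈ U
      · have h7 : |y j| < 1 := lt_of_le_of_ne (hyabs j) (by simpa [hU] using hj)
        have h8 : Filter.Tendsto (fun s : ℝ => |y j| + s * |z j|) (nhdsWithin 0 (Set.Ioi 0))
            (nhds (|y j| + 0 * |z j|)) := by
          apply Filter.Tendsto.mono_left _ nhdsWithin_le_nhds
          exact (Continuous.tendsto (by fun_prop) 0)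
        rw [zero_mul, add_zero] at h8
        exact (h8.eventually (gt_mem_nhds h7)).mono fun s hs => hs.le
      · have h9 : z j = 0 := by simp [hz, hv4 j hj]
        filter_upwards with s
        rw [h9, abs_zero, mul_zero, add_zero]
        exact hyabs j
    obtain ⟨s, hs, hspos⟩ := (hstep.and self_mem_nhdsWithin).exists
    have hspos' : 0 < s := hspos
    have hp : Φ (y + s • z) ≤ Φ y := by
      apply hmax'
      intro j
      have := abs_add_le (y j) (s * z j)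
      rw [abs_mul, abs_of_pos hspos'] at this
      exact this.trans (hs j)
    have hm : Φ (y - s • z) ≤ Φ y := by
      apply hmax'
      intro j
      have := abs_sub (y j) (s * z j)
      rw [abs_mul, abs_of_pos hspos'] at this
      exact this.trans (hs j)
    have hsum : Φ (y + s • z) + Φ (y - s • z) - 2 * Φ y =
        2 * s ^ 2 * (∑ j, z j ^ 2 - (1 / (4 * lam ^ 2)) * ∑ i, (B.mulVec z) i ^ 2) := by
      simp only [hΦ]
      have q1 : ∑ j, (y + s • z) j ^ 2 + ∑ j, (y - s • z) j ^ 2 - 2 * ∑ j, y j ^ 2 =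
          2 * s ^ 2 * ∑ j, z j ^ 2 := by
        rw [Finset.mul_sum, Finset.mul_sum, ← Finset.sum_add_distrib, ← Finset.sum_sub_distrib]
        apply Finset.sum_congr rfl
        intro j _
        simp only [Pi.add_apply, Pi.sub_apply, Pi.smul_apply, smul_eq_mul]
        ring
      have q2 : ∑ i, (B.mulVec (x - (y + s • z))) i ^ 2 + ∑ i, (B.mulVec (x - (y - s • z))) i ^ 2 -
          2 * ∑ i, (B.mulVec (x - y)) i ^ 2 = 2 * s ^ 2 * ∑ i, (B.mulVec z) i ^ 2 := by
        rw [Finset.mul_sum, Finset.mul_sum, ← Finset.sum_add_distrib, ← Finset.sum_sub_distrib]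
        apply Finset.sum_congr rfl
        intro i _
        simp only [Matrix.mulVec_sub, Matrix.mulVec_add, Matrix.mulVec_smul, Pi.sub_apply,
          Pi.add_apply, Pi.smul_apply, smul_eq_mul]
        ring
      linear_combination q1 - (1 / (4 * lam ^ 2)) * q2
    have hpos : 0 < 2 * s ^ 2 * (∑ j, z j ^ 2 - (1 / (4 * lam ^ 2)) *
        ∑ i, (B.mulVec z) i ^ 2) := by
      have : 0 < ∑ j, z j ^ 2 - (1 / (4 * lam ^ 2)) * ∑ i, (B.mulVec z) i ^ 2 := by
        linarith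
      positivity
    linarith
  · have h1 := hmax' x hx
    have h2 : Φ x = ∑ j, x j ^ 2 := by simp [hΦ]
    have h3 : 0 ≤ ∑ j, x j ^ 2 := Finset.sum_nonneg fun j _ => sq_nonneg _
    have h4 : ∑ j, y j ^ 2 ≤ k := by
      calc ∑ j, y j ^ 2 ≤ ∑ j : Fin k, (1 : ℝ) := Finset.sum_le_sum fun j _ => by
            rw [← sq_abs]
            have := hyabs j
            have := abs_nonneg (y j)
            nlinarith
        _ = k := by simp
    have h5 : (1 / (4 * lam ^ 2)) * ∑ i, (B.mulVec (x - y)) i ^ 2 ≤ k := by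
      have : Φ y = ∑ j, y j ^ 2 - (1 / (4 * lam ^ 2)) * ∑ i, (B.mulVec (x - y)) i ^ 2 := rfl
      linarith
    rw [one_div, inv_mul_le_iff₀ (by positivity)] at h5
    linarith

end Pool.Agent.R114.Det
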