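import Mathlib

set_option autoImplicit false

namespace Pool.Agent.R114.Det

open Matrix

open scoped MatrixOrder in
theorem psd_factor {n : Type} [Fintype n] [DecidableEq n] {A : Matrix n n ℝ} (hA : A.PosSemidef) :
    ∃ N : Matrix n n ℝ, A = Nᵀ * N := by
  have h0 : 0 ≤ A := hA.nonneg
  refine ⟨CFC.sqrt A, ?_⟩
  have h1 : (CFC.sqrt A).IsHermitian := (CFC.sqrt_nonneg A).posSemidef.1
  have h2 : (CFC.sqrt A)ᵀ = CFC.sqrt A := by
    rw [← Matrix.conjTranspose_eq_transpose_of_trivial]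
    exact h1
  rw [h2, CFC.sqrt_mul_sqrt_self A h0]

theorem sum_sq_mulVec {m n : Type} [Fintype m] [Fintype n] (N : Matrix m n ℝ) (x : n → ℝ) :
    ∑ i, (N *ᵥ x) i ^ 2 = x ⬝ᵥ ((Nᵀ * N) *ᵥ x) := by
  rw [← Matrix.mulVec_mulVec, Matrix.dotProduct_mulVec, Matrix.vecMul_transpose]
  simp [dotProduct, sq]

variable {α β κ : Type} [Fintype α] [Fintype β] [Fintype κ] [DecidableEq α] [DecidableEq β]

theorem schur_sum (B : Matrix κ (α ⊕ β) ℝ) (hP : (Bᵀ * B).PosDef) (s : ℝ) (hs : 0 ≤ s) :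
    ∃ M : Matrix (α ⊕ β) (α ⊕ β) ℝ,
      (∀ x w : α ⊕ β → ℝ, (∀ a, w (Sum.inl a) = 0) →
        ∑ i, (M *ᵥ x) i ^ 2 ≤ s * ∑ i, (B *ᵥ (x - w)) i ^ 2 + ∑ b, x (Sum.inr b) ^ 2) ∧
      M.det ^ 2 * ((B.submatrix id Sum.inr)ᵀ * (B.submatrix id Sum.inr)).det =
        s ^ Fintype.card α * (Bᵀ * B).det := by
  set P := Bᵀ * B with hPdef
  set A11 := P.toBlocks₁₁ with hA11
  set A12 := P.toBlocks₁₂ with hA12
  set D := P.toBlocks₂₂ with hDdef
  have hPT : Pᵀ = P := by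
    rw [hPdef, Matrix.transpose_mul, Matrix.transpose_transpose]
  have h21 : P.toBlocks₂₁ = A12ᴴ := by
    rw [Matrix.conjTranspose_eq_transpose_of_trivial]
    ext i j
    simp only [hA12, Matrix.toBlocks₂₁, Matrix.toBlocks₁₂, Matrix.transpose_apply, Matrix.of_apply]
    conv_lhs => rw [← hPT]
    rfl
  have hblocks : P = fromBlocks A11 A12 A12ᴴ D := by
    rw [← h21, hA11, hA12, hDdef, Matrix.fromBlocks_toBlocks]
  have hDpos : D.PosDef := by
    have : D = P.submatrix Sum.inr Sum.inr := rfl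
    rw [this]
    exact hP.submatrix Sum.inr_injective
  have hDB : D = (B.submatrix id Sum.inr)ᵀ * (B.submatrix id Sum.inr) := rfl
  have hDdet : D.det ≠ 0 := hDpos.det_pos.ne'
  let _ : Invertible D := D.invertibleOfIsUnitDet (isUnit_iff_ne_zero.mpr hDdet)
  have hS : (A11 - A12 * D⁻¹ * A12ᴴ).PosSemidef := by
    rw [← Matrix.PosDef.fromBlocks₂₂ A11 A12 hDpos, ← hblocks]
    exact hP.posSemidef
  obtain ⟨N, hN⟩ := psd_factor hS
  have hdetP : P.det = D.det * (A11 - A12 * D⁻¹ * A12ᴴ).det := by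
    conv_lhs => rw [hblocks]
    rw [Matrix.det_fromBlocks₂₂, Matrix.invOf_eq_nonsing_inv]
  refine ⟨fromBlocks (Real.sqrt s • N) 0 0 1, ?_, ?_⟩
  · intro x w hw
    have e1 : ∑ i, (fromBlocks (Real.sqrt s • N) 0 0 (1 : Matrix β β ℝ) *ᵥ x) i ^ 2 =
        s * ∑ a, (N *ᵥ (x ∘ Sum.inl)) a ^ 2 + ∑ b, x (Sum.inr b) ^ 2 := by
      rw [Fintype.sum_sum_type, Matrix.fromBlocks_mulVec]
      simp only [Sum.elim_inl, Sum.elim_inr, Matrix.zero_mulVec, add_zero, zero_add,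
        Matrix.one_mulVec, Matrix.smul_mulVec, Pi.smul_apply, smul_eq_mul, mul_pow,
        Real.sq_sqrt hs, Function.comp_apply, ← Finset.mul_sum]
    rw [e1]
    gcongr
    -- key inequality
    set z := x - w with hz
    have e2 : z = (x ∘ Sum.inl) ⊕ᵥ (z ∘ Sum.inr) := by
      ext i
      rcases i with a | b
      · simp [hz, hw a]
      · simp [hz]
    have e3 : ∑ i, (B *ᵥ z) i ^ 2 = z ⬝ᵥ (P *ᵥ z) := sum_sq_mulVec B z
    rw [e3]
    have e4 := Matrix.schur_complement_eq₂₂ A11 A12 (x ∘ Sum.inl) (z ∘ Sum.inr)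
      hDpos.isHermitian
    rw [← e2, ← hblocks] at e4
    simp only [star_trivial] at e4
    rw [← Matrix.dotProduct_mulVec, ← Matrix.dotProduct_mulVec, ← Matrix.dotProduct_mulVec] at e4
    rw [e4, hN, ← sum_sq_mulVec]
    have e5 := (Matrix.posSemidef_iff_dotProduct_mulVec.mp hDpos.posSemidef).2
      ((D⁻¹ * A12ᴴ) *ᵥ (x ∘ Sum.inl) + z ∘ Sum.inr)
    simp only [star_trivial] at e5
    linarith
  · rw [← hDB, hdetP, hN, Matrix.det_fromBlocks_zero₂₁, Matrix.det_one, Matrix.det_smul,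
      Matrix.det_mul, Matrix.det_transpose, mul_one, mul_pow, ← pow_mul, mul_comm _ 2, pow_mul,
      Real.sq_sqrt hs]
    ring

/-- the same over an index type split by a predicate -/
theorem schur_pred {ι : Type} [Fintype ι] [DecidableEq ι] (p : ι → Prop) [DecidablePred p]
    (B : Matrix κ ι ℝ) (hP : (Bᵀ * B).PosDef) (s : ℝ) (hs : 0 ≤ s) :
    ∃ M : Matrix ι ι ℝ,
      (∀ x w : ι → ℝ, (∀ j, p j → w j = 0) →
        ∑ i, (M *ᵥ x) i ^ 2 ≤ s * ∑ i, (B *ᵥ (x - w)) i ^ 2 +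
          ∑ j : {j // ¬ p j}, x j ^ 2) ∧
      M.det ^ 2 * ((B.submatrix id (Subtype.val : {j // ¬ p j} → ι))ᵀ *
        (B.submatrix id (Subtype.val : {j // ¬ p j} → ι))).det =
        s ^ Fintype.card {j // p j} * (Bᵀ * B).det := by
  let e : {j // p j} ⊕ {j // ¬ p j} ≃ ι := Equiv.sumCompl p
  have hP' : ((B.submatrix id e)ᵀ * (B.submatrix id e)).PosDef := by
    have : (B.submatrix id e)ᵀ * (B.submatrix id e) = (Bᵀ * B).submatrix e e := rfl
    rw [this]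
    exact hP.submatrix e.injective
  obtain ⟨M, hM1, hM2⟩ := schur_sum (B.submatrix id e) hP' s hs
  refine ⟨M.submatrix e.symm e.symm, ?_, ?_⟩
  · intro x w hw
    have h1 := hM1 (x ∘ e) (w ∘ e) (fun a => hw _ a.2)
    have h2 : ∑ i, ((M.submatrix e.symm e.symm) *ᵥ x) i ^ 2 = ∑ i, (M *ᵥ (x ∘ e)) i ^ 2 := by
      rw [← Equiv.sum_comp e]
      apply Finset.sum_congr rfl
      intro i _
      rw [Matrix.submatrix_mulVec_equiv]
      simp
    have h3 : ∀ z : ι → ℝ, (B.submatrix id e) *ᵥ (z ∘ e) = B *ᵥ z := by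
      intro z
      rw [Matrix.submatrix_mulVec_equiv]
      ext i
      simp [Function.comp_assoc]
    have h4 : x ∘ e - w ∘ e = (x - w) ∘ e := rfl
    rw [h2]
    rw [h4, h3] at h1
    exact h1
  · rw [Matrix.det_submatrix_equiv_self]
    have h5 : (B.submatrix id e).submatrix id Sum.inr =
        B.submatrix id (Subtype.val : {j // ¬ p j} → ι) := by
      ext i j
      simp [e]
    rw [h5] at hM2
    rw [hM2]
    congr 1
    have : (B.submatrix id e)ᵀ * (B.submatrix id e) = (Bᵀ * B).submatrix e e := rfl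
    rw [this, Matrix.det_submatrix_equiv_self]

end Pool.Agent.R114.Det
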