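import Mathlib
import Pool.Agent.R114.Det.Gauss
import Pool.Agent.R114.Det.CBound
import Pool.Agent.R114.Det.Schur
import Pool.Agent.R114.Det.Round

set_option autoImplicit false

namespace Pool.Agent.R114.Det

open Finset MeasureTheory Matrix

theorem gram_bound {k : ℕ} (B : Matrix (Fin k) (Fin k) ℝ) (L : ℝ) (hL : 0 ≤ L)
    (hmin : ∀ (m : ℕ) (a b : Fin m ↪ Fin k), |(B.submatrix a b).det| ≤ L ^ m)
    (q : Fin k → Prop) [DecidablePred q] :
    ((B.submatrix id (Subtype.val : {j // q j} → Fin k))ᵀ *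
        (B.submatrix id (Subtype.val : {j // q j} → Fin k))).det ≤
      2 ^ k * (L ^ Fintype.card {j // q j}) ^ 2 := by
  set m := Fintype.card {j // q j} with hm
  let e : {j // q j} ≃ Fin m := Fintype.equivFin _
  have h1 := cb_bound (B.submatrix id (Subtype.val ∘ e.symm)) (L ^ m) (by positivity) (by
    intro a
    exact hmin m a ⟨Subtype.val ∘ e.symm, Subtype.val_injective.comp e.symm.injective⟩)
  have h2 : (B.submatrix id (Subtype.val ∘ e.symm))ᵀ * (B.submatrix id (Subtype.val ∘ e.symm)) =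
      ((B.submatrix id (Subtype.val : {j // q j} → Fin k))ᵀ *
        (B.submatrix id (Subtype.val : {j // q j} → Fin k))).submatrix e.symm e.symm := rfl
  rw [h2, Matrix.det_submatrix_equiv_self] at h1
  exact h1

theorem core {k : ℕ} (hk : 0 < k) (B : Matrix (Fin k) (Fin k) ℝ) (L lam : ℝ) (hlam : 0 < lam)
    (hL : 600 * lam < L) (hdet : |B.det| = L ^ k)
    (hmin : ∀ (m : ℕ) (a b : Fin m ↪ Fin k), |(B.submatrix a b).det| ≤ L ^ m)
    (H : PV B lam) : False := by
  classical
  have hL0 : 0 < L := by linarith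
  have hdet0 : B.det ≠ 0 := by
    intro h
    rw [h, abs_zero] at hdet
    exact (pow_pos hL0 k).ne hdet
  have hP : (Bᵀ * B).PosDef := by
    have h1 := Matrix.PosDef.conjTranspose_mul_self B
      (Matrix.mulVec_injective_of_isUnit ((Matrix.isUnit_iff_isUnit_det B).mpr
        (isUnit_iff_ne_zero.mpr hdet0)))
    rwa [Matrix.conjTranspose_eq_transpose_of_trivial] at h1
  set s : ℝ := 1 / (8 * lam ^ 2) with hs
  have hs0 : 0 < s := by positivity
  have hM := fun U : Finset (Fin k) => schur_pred (fun j => j ∉ U) B hP s hs0.le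
  choose M hM1 hM2 using hM
  -- determinants of the `M U`
  have hMdet : ∀ U : Finset (Fin k), 2 * U.card ≤ k → (10 : ℝ) ^ k ≤ |(M U).det| := by
    intro U hU
    have h1 := gram_bound B L hL0.le hmin (fun j => ¬ (j ∉ U))
    have h2 := hM2 U
    have c1 : Fintype.card {j // ¬ (j ∉ U)} = U.card := by
      simp
    have c2 : Fintype.card {j // j ∉ U} = k - U.card := by
      rw [Fintype.card_subtype_compl]
      simp
    rw [c1] at h1
    rw [c2, Matrix.det_mul, Matrix.det_transpose] at h2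
    set G := ((B.submatrix id (Subtype.val : {j // ¬ (j ∉ U)} → Fin k))ᵀ *
        (B.submatrix id (Subtype.val : {j // ¬ (j ∉ U)} → Fin k))).det with hG
    set f := k - U.card with hf
    have hfk : k = f + U.card := by omega
    have h3 : B.det * B.det = (L ^ k) ^ 2 := by
      rw [← hdet, sq_abs, sq]
    rw [h3] at h2
    have h4 : (M U).det ^ 2 * (2 ^ k * (L ^ U.card) ^ 2) ≥ s ^ f * (L ^ k) ^ 2 := by
      rw [← h2]
      exact mul_le_mul_of_nonneg_left h1 (sq_nonneg _)
    have h5 : (L ^ k) ^ 2 = (L ^ 2) ^ f * (L ^ U.card) ^ 2 := by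
      conv_lhs => rw [hfk]
      rw [pow_add]
      ring
    rw [h5] at h4
    have h6 : (M U).det ^ 2 * 2 ^ k ≥ (s * L ^ 2) ^ f := by
      have h7 : 0 < (L ^ U.card) ^ 2 := by positivity
      rw [mul_pow]
      have h8 : (s ^ f * (L ^ 2) ^ f) * (L ^ U.card) ^ 2 ≤
          ((M U).det ^ 2 * 2 ^ k) * (L ^ U.card) ^ 2 := by
        calc (s ^ f * (L ^ 2) ^ f) * (L ^ U.card) ^ 2 = s ^ f * ((L ^ 2) ^ f * (L ^ U.card) ^ 2) := by
              ring
          _ ≤ (M U).det ^ 2 * (2 ^ k * (L ^ U.card) ^ 2) := h4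
          _ = _ := by ring
      exact le_of_mul_le_mul_right h8 h7
    have h9 : (45000 : ℝ) ≤ s * L ^ 2 := by
      rw [hs, one_div, ← div_eq_inv_mul, le_div_iff₀ (by positivity)]
      nlinarith
    have h10 : (45000 : ℝ) ^ f ≤ (M U).det ^ 2 * 2 ^ k :=
      (pow_le_pow_left₀ (by norm_num) h9 f).trans h6
    have h11 : (45000 : ℝ) ^ k ≤ ((M U).det ^ 2 * 2 ^ k) ^ 2 := by
      calc (45000 : ℝ) ^ k ≤ 45000 ^ (2 * f) := pow_le_pow_right₀ (by norm_num) (by omega)
        _ = ((45000 : ℝ) ^ f) ^ 2 := by rw [mul_comm, pow_mul]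
        _ ≤ _ := pow_le_pow_left₀ (by positivity) h10 2
    have h12 : (11250 : ℝ) ^ k ≤ |(M U).det| ^ 4 := by
      have h13 : ((M U).det ^ 2 * 2 ^ k) ^ 2 = |(M U).det| ^ 4 * 4 ^ k := by
        have : |(M U).det| ^ 4 = (M U).det ^ 4 := by
          rw [show (4 : ℕ) = 2 * 2 from rfl, pow_mul, pow_mul, sq_abs]
        rw [this]
        have h4k : (4 : ℝ) ^ k = (2 ^ k) ^ 2 := by
          rw [← pow_mul, mul_comm k 2, pow_mul]; norm_num
        rw [h4k]
        ring
      rw [h13] at h11
      have h14 : (45000 : ℝ) ^ k = 11250 ^ k * 4 ^ k := by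
        rw [← mul_pow]; norm_num
      rw [h14] at h11
      exact le_of_mul_le_mul_right h11 (by positivity)
    have h15 : ((10 : ℝ) ^ k) ^ 4 ≤ |(M U).det| ^ 4 := by
      refine le_trans ?_ h12
      rw [← pow_mul, mul_comm k 4, pow_mul]
      exact pow_le_pow_left₀ (by norm_num) (by norm_num) k
    exact le_of_pow_le_pow_left₀ (by norm_num) (abs_nonneg _) h15
  -- centres
  let cen : Finset (Fin k) → (Fin k → Bool) → (Fin k → ℝ) := fun U σ j =>
    if j ∈ U then 0 else if σ j then 1 else -1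
  let 𝒰 : Finset (Finset (Fin k)) := univ.filter fun U => 2 * U.card ≤ k
  let F : Finset (Fin k) → (Fin k → Bool) → (Fin k → ℝ) → ENNReal := fun U σ x =>
    ENNReal.ofReal (Real.exp k) *
      ENNReal.ofReal (Real.exp (-∑ i, ((M U).mulVec (x - cen U σ)) i ^ 2))
  have hpt : ∀ x ∈ Set.Icc (fun _ => -1 : Fin k → ℝ) (fun _ => 1),
      (1 : ENNReal) ≤ ∑ U ∈ 𝒰, ∑ σ, F U σ x := by
    intro x hx
    obtain ⟨y, hy1, hy2, hy3⟩ := rounding B lam hlam H x
      (fun j => abs_le.mpr ⟨hx.1 j, hx.2 j⟩)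
    set U := univ.filter fun j => |y j| ≠ 1 with hU
    have hUmem : U ∈ 𝒰 := by
      simp only [𝒰, mem_filter, mem_univ, true_and]
      exact hy2
    let σ : Fin k → Bool := fun j => decide (y j = 1)
    have hcen : ∀ j, j ∉ U → cen U σ j = y j := by
      intro j hj
      have h1 : |y j| = 1 := by simpa [hU] using hj
      simp only [cen, hj, if_false, σ, decide_eq_true_eq]
      split_ifs with h2
      · exact h2.symm
      · rcases (abs_eq (by norm_num : (0 : ℝ) ≤ 1)).mp h1 with h3 | h3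
        · exact absurd h3 h2
        · exact h3.symm
    have h1 := hM1 U (x - cen U σ) (y - cen U σ) (fun j hj => by
      simp [hcen j hj])
    have h2 : x - cen U σ - (y - cen U σ) = x - y := by abel
    rw [h2] at h1
    have h3 : ∑ j : {j // ¬ (j ∉ U)}, (x - cen U σ) j ^ 2 ≤ U.card := by
      calc ∑ j : {j // ¬ (j ∉ U)}, (x - cen U σ) j ^ 2 ≤ ∑ j : {j // ¬ (j ∉ U)}, (1 : ℝ) := by
            apply Finset.sum_le_sum
            intro j _
            have hj : (j : Fin k) ∈ U := not_not.mp j.2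
            have : cen U σ j = 0 := by simp only [cen, hj, if_true]
            rw [Pi.sub_apply, this, sub_zero, ← sq_abs]
            have h4 : |x j| ≤ 1 := abs_le.mpr ⟨hx.1 j, hx.2 j⟩
            have h5 := abs_nonneg (x (j : Fin k))
            nlinarith
        _ = U.card := by simp
    have h6 : s * ∑ i, (B.mulVec (x - y)) i ^ 2 ≤ k / 2 := by
      calc s * ∑ i, (B.mulVec (x - y)) i ^ 2 ≤ s * (4 * k * lam ^ 2) :=
            mul_le_mul_of_nonneg_left hy3 hs0.le
        _ = k / 2 := by rw [hs]; field_simp; ring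
    have h7 : (U.card : ℝ) ≤ k / 2 := by
      have : (2 * U.card : ℝ) ≤ k := by exact_mod_cast hy2
      linarith
    have h8 : ∑ i, ((M U).mulVec (x - cen U σ)) i ^ 2 ≤ k := by linarith
    have h9 : 1 ≤ F U σ x := by
      simp only [F]
      rw [← ENNReal.ofReal_mul (Real.exp_pos _).le, ← Real.exp_add, ENNReal.one_le_ofReal]
      apply Real.one_le_exp
      linarith
    calc (1 : ENNReal) ≤ F U σ x := h9
      _ ≤ ∑ σ, F U σ x := Finset.single_le_sum (f := fun σ => F U σ x)
          (fun _ _ => zero_le) (mem_univ σ)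
      _ ≤ ∑ U ∈ 𝒰, ∑ σ, F U σ x := Finset.single_le_sum (f := fun U => ∑ σ, F U σ x)
          (fun _ _ => zero_le) hUmem
  have hmeasF : ∀ U σ, Measurable (F U σ) := by
    intro U σ
    simp only [F]
    apply Measurable.const_mul
    apply ENNReal.measurable_ofReal.comp
    apply Real.measurable_exp.comp
    apply Measurable.neg
    apply Finset.measurable_sum
    intro i _
    apply Measurable.pow_const
    have : Continuous fun x : Fin k → ℝ => (M U).mulVec (x - cen U σ) i := by
      simp only [Matrix.mulVec, dotProduct]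
      fun_prop
    exact this.measurable
  have hvol : volume (Set.Icc (fun _ => -1 : Fin k → ℝ) (fun _ => 1)) =
      ENNReal.ofReal (2 ^ k) := by
    rw [Real.volume_Icc_pi]
    simp only [Finset.prod_const, Finset.card_univ, Fintype.card_fin]
    rw [← ENNReal.ofReal_pow (by norm_num)]
    norm_num
  have hint : ENNReal.ofReal (2 ^ k) ≤
      ∑ U ∈ 𝒰, ∑ σ : Fin k → Bool, ENNReal.ofReal (Real.exp k) *
        ENNReal.ofReal (√Real.pi ^ k / |(M U).det|) := by
    calc ENNReal.ofReal (2 ^ k) = ∫⁻ x in Set.Icc (fun _ => -1 : Fin k → ℝ) (fun _ => 1), 1 := by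
          rw [setLIntegral_one, hvol]
      _ ≤ ∫⁻ x in Set.Icc (fun _ => -1 : Fin k → ℝ) (fun _ => 1), ∑ U ∈ 𝒰, ∑ σ, F U σ x :=
          setLIntegral_mono' measurableSet_Icc hpt
      _ ≤ ∫⁻ x, ∑ U ∈ 𝒰, ∑ σ, F U σ x := setLIntegral_le_lintegral _ _
      _ = ∑ U ∈ 𝒰, ∑ σ, ∫⁻ x, F U σ x := by
          rw [lintegral_finsetSum _ (fun U _ => Finset.measurable_sum _ fun σ _ => hmeasF U σ)]
          apply Finset.sum_congr rfl
          intro U _
          rw [lintegral_finsetSum _ (fun σ _ => hmeasF U σ)]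
      _ = _ := by
          apply Finset.sum_congr rfl
          intro U hU
          apply Finset.sum_congr rfl
          intro σ _
          have hU' : 2 * U.card ≤ k := (mem_filter.mp hU).2
          have hne : (M U).det ≠ 0 := by
            intro h
            have := hMdet U hU'
            rw [h, abs_zero] at this
            exact absurd this (not_le.mpr (by positivity))
          simp only [F]
          rw [lintegral_const_mul' _ _ ENNReal.ofReal_ne_top, gauss_mat _ hne, Fintype.card_fin]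
  have hterm : ∀ U ∈ 𝒰, ENNReal.ofReal (Real.exp k) *
        ENNReal.ofReal (√Real.pi ^ k / |(M U).det|) ≤ ENNReal.ofReal ((49 / 100) ^ k) := by
    intro U hU
    have hU' : 2 * U.card ≤ k := (mem_filter.mp hU).2
    have h1 := hMdet U hU'
    rw [← ENNReal.ofReal_mul (Real.exp_pos _).le]
    apply ENNReal.ofReal_le_ofReal
    have h2 : Real.exp k = (Real.exp 1) ^ k := by
      rw [← Real.exp_nat_mul, mul_one]
    have h3 : √Real.pi ≤ 1.775 := by
      rw [Real.sqrt_le_left (by norm_num)]
      have := Real.pi_lt_d2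
      norm_num at this ⊢
      linarith
    have h4 : Real.exp 1 ≤ 2.72 := by
      have := Real.exp_one_lt_d9
      norm_num at this ⊢
      linarith
    calc Real.exp k * (√Real.pi ^ k / |(M U).det|) ≤ Real.exp k * (√Real.pi ^ k / 10 ^ k) := by
          gcongr
      _ = (Real.exp 1 * √Real.pi / 10) ^ k := by
          rw [h2, div_pow, mul_pow]
          ring
      _ ≤ (49 / 100) ^ k := by
          apply pow_le_pow_left₀ (by positivity)
          have h5 : Real.exp 1 * √Real.pi ≤ 2.72 * 1.775 :=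
            mul_le_mul h4 h3 (by positivity) (by norm_num)
          norm_num at h5 ⊢
          linarith
  have hfin : ENNReal.ofReal (2 ^ k) ≤ ENNReal.ofReal (2 ^ k * (2 ^ k * (49 / 100) ^ k)) := by
    calc ENNReal.ofReal (2 ^ k) ≤ ∑ U ∈ 𝒰, ∑ σ : Fin k → Bool, ENNReal.ofReal (Real.exp k) *
        ENNReal.ofReal (√Real.pi ^ k / |(M U).det|) := hint
      _ ≤ ∑ U ∈ 𝒰, ∑ σ : Fin k → Bool, ENNReal.ofReal ((49 / 100) ^ k) :=
          Finset.sum_le_sum fun U hU => Finset.sum_le_sum fun σ _ => hterm U hU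
      _ ≤ ∑ U : Finset (Fin k), ∑ σ : Fin k → Bool, ENNReal.ofReal ((49 / 100) ^ k) :=
          Finset.sum_le_sum_of_subset (filter_subset _ _)
      _ = ENNReal.ofReal (2 ^ k * (2 ^ k * (49 / 100) ^ k)) := by
          rw [Finset.sum_const, Finset.sum_const, card_univ, card_univ, Fintype.card_finset,
            Fintype.card_fun, Fintype.card_fin, Fintype.card_bool, nsmul_eq_mul, nsmul_eq_mul,
            ENNReal.ofReal_mul (by positivity), ENNReal.ofReal_mul (by positivity),
            ENNReal.ofReal_pow (by norm_num)]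
          norm_num
  rw [ENNReal.ofReal_le_ofReal_iff (by positivity)] at hfin
  have h1 : (2 : ℝ) ^ k * (2 ^ k * (49 / 100) ^ k) = 2 ^ k * (49 / 50) ^ k := by
    rw [← mul_pow]; norm_num
  rw [h1] at hfin
  have h2 : ((49 : ℝ) / 50) ^ k < 1 := pow_lt_one₀ (by norm_num) (by norm_num) hk.ne'
  have h3 : (0 : ℝ) < 2 ^ k := by positivity
  nlinarith

end Pool.Agent.R114.Det
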